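import Pool.Agent.Q293.RenyiBRW
import Pool.Agent.Q293.RenyiParam

/-!
# The formula for the asymptotic Rényi entropies of branching random walks fails below order one

Binary branching (`ρ = 2`) on a free group with steps in the positive letters: the positions of the
particles are words of i.i.d. non-uniform letters. If `∑ (2 λ_a)^θ < 2` for some `θ < 1`, i.e.
essentially if the Shannon entropy of the letters is smaller than `log 2`, then almost surely the
number of occupied points grows at a rate strictly smaller than `log 2`, whereas the Rényi entropy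
of order `α < 1` of the letters can be at least `log 2`.
-/

set_option autoImplicit false

open MeasureTheory Filter Topology

namespace Pool.Agent.Results.MP_96db20_pr.FormulaFailsBelowOne

/-- The Rényi entropy of order `α ≠ 1` of `ν`, with values in `[-∞, ∞]`:
`(1 / (1 - α)) log ∑_{g : ν g > 0} (ν g)^α`. -/
noncomputable def renyi {G : Type} (α : ℝ) (ν : G → ENNReal) : EReal :=
  ((1 / (1 - α) : ℝ) : EReal) * ENNReal.log (∑' g : {g // ν g ≠ 0}, ν g ^ α)

/-- The convolution powers `μ^{*n}`. -/
noncomputable def convPow {G : Type} [Group G] (μ : PMF G) : ℕ → PMF G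
  | 0 => PMF.pure 1
  | n + 1 => μ.bind fun g => (convPow μ n).map fun x => g * x

/-- The law of the i.i.d. marks `ω v` with law `μ` attached to the vertices `v` of the binary tree;
every subset of the group is measurable. A vertex is the list of the choices from itself up to the
root: the root is the empty list, and the two children of `u` are `true :: u` and `false :: u`. -/
noncomputable def marks {G : Type} (μ : PMF G) :
    @Measure (List Bool → G) (@MeasurableSpace.pi (List Bool) (fun _ => G) (fun _ => ⊤)) :=
  @Measure.infinitePi (List Bool) (fun _ => G) (fun _ => ⊤)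
    (fun _ : List Bool => @PMF.toMeasure G ⊤ μ)

/-- The position of a vertex: the product of the marks from the child of the root down to it. -/
def pos {G : Type} [Group G] (ω : List Bool → G) : List Bool → G
  | [] => 1
  | b :: u => pos ω u * ω (b :: u)

/-- The empirical distribution of generation `n`. -/
noncomputable def emp {G : Type} [Group G] (ω : List Bool → G) (n : ℕ) (x : G) : ENNReal :=
  (Nat.card {v : Fin n → Bool // pos ω (List.ofFn v) = x} : ENNReal) / 2 ^ n

section Helpers

theorem convPow_eq {G : Type} [Group G] (μ : PMF G) (n : ℕ) :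
    convPow μ n = Q293.Renyi.convPow μ n := by
  induction n with
  | zero => rfl
  | succ n ih => rw [convPow, Q293.Renyi.convPow, ih]

theorem pos_eq {G : Type} [Group G] (ω : List Bool → G) (v : List Bool) :
    pos ω v = Q293.Renyi.pos ω v := by
  induction v with
  | nil => rfl
  | cons b u ih => rw [pos, Q293.Renyi.pos, ih]

theorem emp_eq {G : Type} [Group G] (ω : List Bool → G) (n : ℕ) :
    emp ω n = Q293.Renyi.emp ω n := by
  funext x
  unfold emp Q293.Renyi.emp
  simp only [pos_eq]

end Helpers

/-- Let `0 ≤ α < 1`. For binary branching (every vertex has exactly two children, so `ρ = 2`) there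
are a free group `G` of finite rank `m ≥ 2` and a finitely supported probability measure `μ` on `G` such
that the asymptotic Rényi entropy `h = lim H(α, μ^{*n}) / n` satisfies `2 ≤ e^h`, but for some
`c < log 2`, almost surely, `H(α, M_n) / n ≤ c` for all large `n`, where `M_n` is the empirical
distribution of generation `n`. In particular `H(α, M_n) / n` almost surely does not converge to
`log ρ`. -/
theorem result (α : ℝ) (h0 : 0 ≤ α) (h1 : α < 1) :
    ∃ (m : ℕ) (μ : PMF (FreeGroup (Fin m))) (h c : ℝ), 2 ≤ m ∧ μ.support.Finite ∧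
      Tendsto (fun n : ℕ => renyi α (convPow μ n) / (n : EReal)) atTop (𝓝 (h : EReal)) ∧
      2 ≤ Real.exp h ∧ c < Real.log 2 ∧
      ∀ᵐ ω ∂(marks μ), (∀ᶠ n : ℕ in atTop, renyi α (emp ω n) / (n : EReal) ≤ (c : EReal)) ∧
        ¬ Tendsto (fun n : ℕ => renyi α (emp ω n) / (n : EReal)) atTop
          (𝓝 ((Real.log 2 : ℝ) : EReal)) := by
  obtain ⟨m, lam, hm2, hpos, hsum, hlow, hup⟩ := Q293.Renyi.exists_param α h0 h1
  set lamE : Fin m → ENNReal := fun a => ENNReal.ofReal (lam a) with hlamE
  have hsumE : ∑ a, lamE a = 1 := by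
    rw [hlamE, ← ENNReal.ofReal_sum_of_nonneg fun a _ => (hpos a).le, hsum, ENNReal.ofReal_one]
  have hposE : ∀ a, lamE a ≠ 0 := fun a => (ENNReal.ofReal_pos.2 (hpos a)).ne'
  have hαpos : 0 < 1 - α := by linarith
  set S : ℝ := ∑ a, lam a ^ α with hS
  have hSE : ∑ a, lamE a ^ α = ENNReal.ofReal S := by
    rw [hS, ENNReal.ofReal_sum_of_nonneg fun a _ => Real.rpow_nonneg (hpos a).le _]
    apply Finset.sum_congr rfl
    intro a _
    rw [hlamE, ENNReal.ofReal_rpow_of_nonneg (hpos a).le h0]
  have hS0 : 0 < S := lt_of_lt_of_le (by positivity) hlow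
  set θ : ℝ := (1 + α) / 2 with hθ
  set K : ℝ := ∑ a, (2 * lam a) ^ θ with hK
  have hKE : ∑ a, (2 * lamE a) ^ θ = ENNReal.ofReal K := by
    rw [hK, ENNReal.ofReal_sum_of_nonneg fun a _ => Real.rpow_nonneg (by linarith [hpos a]) _]
    apply Finset.sum_congr rfl
    intro a _
    rw [hlamE, ← ENNReal.ofReal_rpow_of_nonneg (by linarith [hpos a]) (by rw [hθ]; linarith),
      ENNReal.ofReal_mul (by norm_num)]
    simp
  have hK0 : 0 ≤ K := Finset.sum_nonneg fun a _ => Real.rpow_nonneg (by linarith [hpos a]) _
  set L : ℝ := (K + 2) / 2 with hL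
  have hL1 : K < L := by rw [hL]; linarith
  have hL2 : L < 2 := by rw [hL]; linarith
  have hL0 : 0 < L := by linarith
  set μ := Q293.Renyi.mu lamE hsumE with hμ
  have hc : Real.log L < Real.log 2 := Real.log_lt_log hL0 hL2
  refine ⟨m, μ, 1 / (1 - α) * Real.log S, Real.log L, hm2, Q293.Renyi.mu_support_finite lamE hsumE,
    ?_, ?_, hc, ?_⟩
  · apply tendsto_const_nhds.congr'
    filter_upwards [eventually_gt_atTop 0] with n hn
    have hn0 : (n : ℝ) ≠ 0 := by exact_mod_cast hn.ne'
    have h3 : renyi α (convPow μ n) = ((1 / (1 - α) * (n * Real.log S) : ℝ) : EReal) := by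
      unfold renyi
      rw [convPow_eq, Q293.Renyi.sum_convPow lamE hsumE hposE α h0, hSE,
        ← ENNReal.ofReal_pow hS0.le, ENNReal.log_ofReal_of_pos (pow_pos hS0 n), Real.log_pow,
        ← EReal.coe_mul]
    rw [h3]
    have h4 : ((n : ℕ) : EReal) = ((n : ℝ) : EReal) := by norm_cast
    rw [h4, ← EReal.coe_div]
    congr 1
    field_simp
  · have h5 : Real.log 2 ≤ 1 / (1 - α) * Real.log S := by
      have h6 : (1 - α) * Real.log 2 ≤ Real.log S := by
        rw [← Real.log_rpow (by norm_num)]
        exact Real.log_le_log (by positivity) hlow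
      rw [one_div, ← div_eq_inv_mul, le_div_iff₀ hαpos]
      linarith
    calc (2 : ℝ) = Real.exp (Real.log 2) := (Real.exp_log (by norm_num)).symm
      _ ≤ _ := Real.exp_le_exp.2 h5
  · let _ : MeasurableSpace (FreeGroup (Fin m)) := ⊤
    have : DiscreteMeasurableSpace (FreeGroup (Fin m)) := ⟨fun _ => trivial⟩
    have hae := Q293.Renyi.ae_occ lamE hsumE θ (by rw [hθ]; linarith) (by rw [hθ]; linarith) L hL0
      (by rw [hKE]; exact (ENNReal.ofReal_lt_ofReal_iff hL0).2 hL1)
    have hae2 : ∀ᵐ ω ∂(marks μ), ∀ᶠ n : ℕ in atTop,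
        renyi α (emp ω n) / (n : EReal) ≤ ((Real.log L : ℝ) : EReal) := by
      have hae' : ∀ᵐ ω ∂(marks μ), ∀ᶠ n in atTop,
          ((Q293.Renyi.occ ω n).card : ℝ) ≤ L ^ n := hae
      filter_upwards [hae'] with ω hω
      filter_upwards [hω, eventually_gt_atTop 0] with n hn hn0
      have hn0' : (0 : ℝ) < n := by exact_mod_cast hn0
      have hcard : (0 : ℝ) < (Q293.Renyi.occ ω n).card := by
        exact_mod_cast (Q293.Renyi.occ_nonempty ω n).card_pos
      have h6 : renyi α (emp ω n) ≤ ((n * Real.log L : ℝ) : EReal) := by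
        rw [emp_eq]
        refine (Q293.Renyi.renyi_emp_le ω n α h0 h1).trans ?_
        rw [EReal.coe_le_coe_iff, ← Real.log_pow]
        exact Real.log_le_log hcard hn
      have h4 : ((n : ℕ) : EReal) = ((n : ℝ) : EReal) := by norm_cast
      rw [h4]
      have h7 : (0 : EReal) < ((n : ℝ) : EReal) := EReal.coe_pos.2 hn0'
      refine (EReal.div_le_div_right_of_nonneg h7.le h6).trans ?_
      rw [← EReal.coe_div, EReal.coe_le_coe_iff]
      rw [mul_div_cancel_left₀ _ hn0'.ne']
    filter_upwards [hae2] with ω hω
    refine ⟨hω, fun hlim => ?_⟩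
    have h8 := le_of_tendsto hlim hω
    rw [EReal.coe_le_coe_iff] at h8
    linarith

end Pool.Agent.Results.MP_96db20_pr.FormulaFailsBelowOne
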